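import Pool.Agent.U168.KF5.Up5
import Pool.Agent.Y569.SP.Chain5

/-!
# k-fold sums and products: the case k = 2
-/

set_option autoImplicit false

open Finset
open scoped Pointwise

namespace Pool.Agent.U168.KF5

open Pool.Agent.W798.SP Pool.Agent.W798.KF Pool.Agent.TH408.SP Pool.Agent.Y569.SP

theorem k2 (κ : ℝ) (hκ : κ < 680 / 507) : ∃ c : ℝ, 0 < c ∧ ∀ A : Finset ℝ,
    A.Nonempty → c * (A.card : ℝ) ^ κ ≤
      max ((sm A 1).card : ℝ) ((pr A 1).card : ℝ) := by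
  obtain ⟨c, hc, H⟩ := pRE5 (507 * (680 / 507 - κ)) (by linarith)
  have hexp : (680 : ℝ) - 507 * (680 / 507 - κ) = 507 * κ := by ring
  rw [hexp] at H
  refine ⟨c ^ ((1 : ℝ) / 507), Real.rpow_pos_of_pos hc _, ?_⟩
  intro A hA
  have h1 : c * (A.card : ℝ) ^ (507 * κ) ≤ ((sm A 1).card : ℝ) ^ 298 * ((pr A 1).card : ℝ) ^ 209 :=
    H A hA
  have hN : (0 : ℝ) ≤ (A.card : ℝ) := Nat.cast_nonneg _
  obtain ⟨a, ha⟩ : ∃ a : ℝ, a = ((sm A 1).card : ℝ) := ⟨_, rfl⟩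
  obtain ⟨b, hb⟩ : ∃ b : ℝ, b = ((pr A 1).card : ℝ) := ⟨_, rfl⟩
  have ha0 : 0 ≤ a := by rw [ha]; positivity
  have hb0 : 0 ≤ b := by rw [hb]; positivity
  rw [← ha, ← hb] at h1 ⊢
  set m : ℝ := max a b with hm
  have hm0 : 0 ≤ m := le_trans ha0 (le_max_left _ _)
  have h2 : a ^ 298 * b ^ 209 ≤ m ^ 507 := by
    have e : m ^ 507 = m ^ 298 * m ^ 209 := by rw [← pow_add]
    rw [e]
    have e1 : a ^ 298 ≤ m ^ 298 := pow_le_pow_left₀ ha0 (le_max_left _ _) _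
    have e2 : b ^ 209 ≤ m ^ 209 := pow_le_pow_left₀ hb0 (le_max_right _ _) _
    exact mul_le_mul e1 e2 (pow_nonneg hb0 _) (pow_nonneg hm0 _)
  have h3 : c * (A.card : ℝ) ^ (507 * κ) ≤ m ^ 507 := h1.trans h2
  have h4 : (c ^ ((1 : ℝ) / 507) * (A.card : ℝ) ^ κ) ^ 507 =
      c * (A.card : ℝ) ^ (507 * κ) := by
    rw [mul_pow, ← Real.rpow_natCast (c ^ ((1 : ℝ) / 507)), ← Real.rpow_mul hc.le,
      ← Real.rpow_natCast ((A.card : ℝ) ^ κ), ← Real.rpow_mul hN]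
    norm_num
    left
    congr 1
    ring
  by_contra hlt
  push Not at hlt
  have h5 : m ^ 507 < (c ^ ((1 : ℝ) / 507) * (A.card : ℝ) ^ κ) ^ 507 :=
    pow_lt_pow_left₀ hlt hm0 (by norm_num)
  rw [h4] at h5
  linarith

theorem k3 (j : ℕ) (hj : 1 ≤ j) (κ : ℝ) (hκ : κ < ex5 j) : ∃ c : ℝ, 0 < c ∧ ∀ A : Finset ℝ,
    A.Nonempty → c * (A.card : ℝ) ^ κ ≤
      max ((sm A (j + 1)).card : ℝ) ((pr A (j + 1)).card : ℝ) := by
  obtain ⟨c, hc, H⟩ := kr5 pAS5 pDY3 j hj (ex5 j - κ) (by linarith)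
  have he : ex5 j - (ex5 j - κ) = κ := by ring
  rw [he] at H
  exact ⟨c, hc, H⟩

end Pool.Agent.U168.KF5
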